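import Pool.Agent.Helper94.US.Stm

set_option autoImplicit false

namespace Pool.Agent.Helper94.US

open Finset

theorem sum_ite_le (L k : ℕ) (c : ℝ) (hc : 0 ≤ c) (p : ℕ → Prop) [DecidablePred p]
    (hp : ∀ i, p i → i < k) : ∑ i ∈ range L, (if p i then c else 0) ≤ k * c := by
  rw [← Finset.sum_filter, Finset.sum_const, nsmul_eq_mul]
  apply mul_le_mul_of_nonneg_right _ hc
  have : ((range L).filter p).card ≤ (range k).card := by
    apply Finset.card_le_card
    intro i hi
    rw [Finset.mem_filter] at hi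
    exact Finset.mem_range.2 (hp i hi.2)
  rw [Finset.card_range] at this
  exact_mod_cast this

theorem harm_le (L : ℕ) : ∑ m ∈ range L, 1 / ((m : ℝ) + 1) ≤ 1 + Real.log ((L : ℝ) + 1) := by
  have h := harmonic_le_one_add_log L
  have e : ((harmonic L : ℚ) : ℝ) = ∑ m ∈ range L, 1 / ((m : ℝ) + 1) := by
    unfold harmonic
    push_cast
    exact Finset.sum_congr rfl fun m _ => by rw [one_div]
  rw [← e]
  refine h.trans ?_
  rcases Nat.eq_zero_or_pos L with h0 | h0
  · subst h0
    simp
  · have : (0 : ℝ) < L := by exact_mod_cast h0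
    have := Real.log_le_log this (by linarith : (L : ℝ) ≤ L + 1)
    linarith

theorem t_A2c : A2c := by
  intro C hC
  refine ⟨3 * C, by positivity, fun L => ?_⟩
  have hH := harm_le L
  have key : ∀ r t s : ℕ,
      min (C / (((r : ℝ) + 1) * ((t : ℝ) + 1))) (C / (((s : ℝ) + 1) * ((t : ℝ) + 1))) /
        ((r : ℝ) + t + 1) ≤
      ((if t ≤ r then C / (((r : ℝ) + 1) ^ 2 * ((t : ℝ) + 1)) else 0) +
        (if s ≤ r then (if r < t then C / (((r : ℝ) + 1) * ((t : ℝ) + 1) ^ 2) else 0) else 0)) +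
        (if r < s then C / (((s : ℝ) + 1) * ((t : ℝ) + 1) ^ 2) else 0) := by
    intro r t s
    have hr : (0 : ℝ) ≤ r := Nat.cast_nonneg r
    have ht : (0 : ℝ) ≤ t := Nat.cast_nonneg t
    have hs : (0 : ℝ) ≤ s := Nat.cast_nonneg s
    have n1 : (0 : ℝ) ≤ (if t ≤ r then C / (((r : ℝ) + 1) ^ 2 * ((t : ℝ) + 1)) else 0) := by
      split_ifs <;> positivity
    have n2 : (0 : ℝ) ≤ (if s ≤ r then (if r < t then C / (((r : ℝ) + 1) * ((t : ℝ) + 1) ^ 2) else 0)
        else 0) := by
      split_ifs <;> positivity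
    have n3 : (0 : ℝ) ≤ (if r < s then C / (((s : ℝ) + 1) * ((t : ℝ) + 1) ^ 2) else 0) := by
      split_ifs <;> positivity
    by_cases h1 : r < s
    · have h2 : min (C / (((r : ℝ) + 1) * ((t : ℝ) + 1))) (C / (((s : ℝ) + 1) * ((t : ℝ) + 1))) /
          ((r : ℝ) + t + 1) ≤ C / (((s : ℝ) + 1) * ((t : ℝ) + 1) ^ 2) := by
        refine (div_le_div_of_nonneg_right (min_le_right _ _) (by positivity)).trans ?_
        rw [div_div]
        apply div_le_div_of_nonneg_left hC.le (by positivity)
        rw [pow_two, ← mul_assoc]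
        apply mul_le_mul_of_nonneg_left _ (by positivity)
        linarith
      rw [if_pos h1] at n3 ⊢
      linarith
    · have h1' : s ≤ r := not_lt.1 h1
      by_cases h2 : t ≤ r
      · have h3 : min (C / (((r : ℝ) + 1) * ((t : ℝ) + 1))) (C / (((s : ℝ) + 1) * ((t : ℝ) + 1))) /
            ((r : ℝ) + t + 1) ≤ C / (((r : ℝ) + 1) ^ 2 * ((t : ℝ) + 1)) := by
          refine (div_le_div_of_nonneg_right (min_le_left _ _) (by positivity)).trans ?_
          rw [div_div]
          apply div_le_div_of_nonneg_left hC.le (by positivity)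
          have : ((r : ℝ) + 1) ^ 2 * ((t : ℝ) + 1) = ((r : ℝ) + 1) * ((t : ℝ) + 1) * ((r : ℝ) + 1) := by
            ring
          rw [this]
          apply mul_le_mul_of_nonneg_left _ (by positivity)
          linarith
        rw [if_pos h2] at n1 ⊢
        linarith
      · have h3 : min (C / (((r : ℝ) + 1) * ((t : ℝ) + 1))) (C / (((s : ℝ) + 1) * ((t : ℝ) + 1))) /
            ((r : ℝ) + t + 1) ≤ C / (((r : ℝ) + 1) * ((t : ℝ) + 1) ^ 2) := by
          refine (div_le_div_of_nonneg_right (min_le_left _ _) (by positivity)).trans ?_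
          rw [div_div]
          apply div_le_div_of_nonneg_left hC.le (by positivity)
          rw [pow_two, ← mul_assoc]
          apply mul_le_mul_of_nonneg_left _ (by positivity)
          linarith
        rw [if_pos h1', if_pos (not_le.1 h2)] at n2 ⊢
        linarith
  have hbig : ∑ r ∈ range L, ∑ t ∈ range L, ∑ s ∈ range (t + 1),
      min (C / (((r : ℝ) + 1) * ((t : ℝ) + 1))) (C / (((s : ℝ) + 1) * ((t : ℝ) + 1))) /
        ((r : ℝ) + t + 1) ≤
      ((∑ r ∈ range L, ∑ t ∈ range L, ∑ s ∈ range (t + 1),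
        (if t ≤ r then C / (((r : ℝ) + 1) ^ 2 * ((t : ℝ) + 1)) else 0)) +
      (∑ r ∈ range L, ∑ t ∈ range L, ∑ s ∈ range (t + 1),
        (if s ≤ r then (if r < t then C / (((r : ℝ) + 1) * ((t : ℝ) + 1) ^ 2) else 0) else 0))) +
      (∑ r ∈ range L, ∑ t ∈ range L, ∑ s ∈ range (t + 1),
        (if r < s then C / (((s : ℝ) + 1) * ((t : ℝ) + 1) ^ 2) else 0)) := by
    rw [← Finset.sum_add_distrib, ← Finset.sum_add_distrib]
    refine Finset.sum_le_sum fun r _ => ?_
    rw [← Finset.sum_add_distrib, ← Finset.sum_add_distrib]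
    refine Finset.sum_le_sum fun t _ => ?_
    rw [← Finset.sum_add_distrib, ← Finset.sum_add_distrib]
    exact Finset.sum_le_sum fun s _ => key r t s
  have e0 : ∀ m : ℕ, (0 : ℝ) < (m : ℝ) + 1 := fun m => by positivity
  have hA : ∑ r ∈ range L, ∑ t ∈ range L, ∑ s ∈ range (t + 1),
      (if t ≤ r then C / (((r : ℝ) + 1) ^ 2 * ((t : ℝ) + 1)) else 0) ≤
      C * ∑ m ∈ range L, 1 / ((m : ℝ) + 1) := by
    rw [Finset.mul_sum]
    refine Finset.sum_le_sum fun r _ => ?_
    have h1 : ∀ t ∈ range L, ∑ s ∈ range (t + 1),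
        (if t ≤ r then C / (((r : ℝ) + 1) ^ 2 * ((t : ℝ) + 1)) else 0) =
        if t ≤ r then C / ((r : ℝ) + 1) ^ 2 else 0 := by
      intro t _
      rw [Finset.sum_const, Finset.card_range, nsmul_eq_mul]
      split_ifs
      · have := (e0 t).ne'
        have := (e0 r).ne'
        push_cast
        field_simp
      · rw [mul_zero]
    rw [Finset.sum_congr rfl h1]
    refine (sum_ite_le L (r + 1) _ (by positivity) (fun t => t ≤ r) fun t ht => by omega).trans ?_
    apply le_of_eq
    have := (e0 r).ne'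
    push_cast
    field_simp
  have hB : ∑ r ∈ range L, ∑ t ∈ range L, ∑ s ∈ range (t + 1),
      (if s ≤ r then (if r < t then C / (((r : ℝ) + 1) * ((t : ℝ) + 1) ^ 2) else 0) else 0) ≤
      C * ∑ m ∈ range L, 1 / ((m : ℝ) + 1) := by
    rw [Finset.sum_comm, Finset.mul_sum]
    refine Finset.sum_le_sum fun t _ => ?_
    have h1 : ∀ r ∈ range L, ∑ s ∈ range (t + 1),
        (if s ≤ r then (if r < t then C / (((r : ℝ) + 1) * ((t : ℝ) + 1) ^ 2) else 0) else 0) ≤
        if r < t then C / ((t : ℝ) + 1) ^ 2 else 0 := by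
      intro r _
      refine (sum_ite_le (t + 1) (r + 1) _ (by split_ifs <;> positivity) (fun s => s ≤ r)
        fun s hs => by omega).trans ?_
      split_ifs
      · apply le_of_eq
        have := (e0 r).ne'
        have := (e0 t).ne'
        push_cast
        field_simp
      · rw [mul_zero]
    refine (Finset.sum_le_sum h1).trans ?_
    refine (sum_ite_le L t _ (by positivity) (fun r => r < t) fun r hr => hr).trans ?_
    have h2 := (e0 t).ne'
    have h3 : (t : ℝ) * (C / ((t : ℝ) + 1) ^ 2) ≤ ((t : ℝ) + 1) * (C / ((t : ℝ) + 1) ^ 2) := by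
      apply mul_le_mul_of_nonneg_right _ (by positivity)
      linarith
    refine h3.trans (le_of_eq ?_)
    field_simp
  have hD : ∑ r ∈ range L, ∑ t ∈ range L, ∑ s ∈ range (t + 1),
      (if r < s then C / (((s : ℝ) + 1) * ((t : ℝ) + 1) ^ 2) else 0) ≤
      C * ∑ m ∈ range L, 1 / ((m : ℝ) + 1) := by
    rw [Finset.sum_comm, Finset.mul_sum]
    refine Finset.sum_le_sum fun t _ => ?_
    rw [Finset.sum_comm]
    have h1 : ∀ s ∈ range (t + 1), ∑ r ∈ range L,
        (if r < s then C / (((s : ℝ) + 1) * ((t : ℝ) + 1) ^ 2) else 0) ≤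
        C / ((t : ℝ) + 1) ^ 2 := by
      intro s _
      refine (sum_ite_le L s _ (by positivity) (fun r => r < s) fun r hr => hr).trans ?_
      have h2 := (e0 t).ne'
      have h2' := (e0 s).ne'
      have h3 : (s : ℝ) * (C / (((s : ℝ) + 1) * ((t : ℝ) + 1) ^ 2)) ≤
          ((s : ℝ) + 1) * (C / (((s : ℝ) + 1) * ((t : ℝ) + 1) ^ 2)) := by
        apply mul_le_mul_of_nonneg_right _ (by positivity)
        linarith
      refine h3.trans (le_of_eq ?_)
      field_simp
    refine (Finset.sum_le_sum h1).trans ?_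
    rw [Finset.sum_const, Finset.card_range, nsmul_eq_mul]
    apply le_of_eq
    have := (e0 t).ne'
    push_cast
    field_simp
  have h3 : 3 * C * ∑ m ∈ range L, 1 / ((m : ℝ) + 1) ≤ 3 * C * (1 + Real.log ((L : ℝ) + 1)) :=
    mul_le_mul_of_nonneg_left hH (by positivity)
  refine hbig.trans (le_trans ?_ h3)
  linarith

end Pool.Agent.Helper94.US
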