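import Pool.Agent.Helper94.US.Stm
import Pool.Agent.H692R2.USS.SplitField
import Pool.Agent.H692R2.USS.T5

set_option autoImplicit false

namespace Pool.Agent.Helper94.US

open Polynomial Finset Pool.Agent.H692R2.USS Pool.Agent.TH997.US
open scoped Classical

theorem t_A3 : A3 := by
  intro k _
  obtain ⟨K, _, _, hK⟩ := splitField k
  obtain ⟨c, C, hc, h⟩ := massK bt K
  refine ⟨c, C, hc, fun L hL => (h L hL).trans ?_⟩
  refine Finset.sum_le_sum_of_subset_of_nonneg ?_ fun p _ _ => by positivity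
  intro p hp
  rw [Finset.mem_filter] at hp ⊢
  exact ⟨hp.1, hp.2.1, hK p hp.2.1 hp.2.2⟩

end Pool.Agent.Helper94.US
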