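import Pool.Agent.Helper94.US.Asm
import Pool.Agent.Helper94.US.A2c
import Pool.Agent.Helper10K1.US.F2
import Pool.Agent.Helper19.US.A2a
import Pool.Agent.Helper31.US.E1a
import Pool.Agent.Helper33.US.Dc
import Pool.Agent.Helper3K.US.A6
import Pool.Agent.Helper43.US.Leib
import Pool.Agent.Helper48.US.B1
import Pool.Agent.Helper50.US.DaDb
import Pool.Agent.Helper61A.US.A5
import Pool.Agent.Helper65.US.A2b
import Pool.Agent.Helper71.US.A1
import Pool.Agent.Helper71.US.A4a
import Pool.Agent.Helper82.US.A4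
import Pool.Agent.Helper83.US.F1b
import Pool.Agent.Helper83.US.F1c
import Pool.Agent.Helper91K1.US.D0
import Pool.Agent.Helper98.US.F1a
import Pool.Agent.Helper99.US.B2

set_option autoImplicit false

/-! # The universal Skolem set of density one: all pieces together -/

namespace Pool.Agent.Helper94.US

open Polynomial Finset Pool.Agent.H692R2.USS Pool.Agent.TH997.US
open scoped Classical

theorem all : ∃ S : Set ℕ, ComputablePred (fun n : ℕ => n ∈ S) ∧
      Filter.Tendsto (fun N : ℕ => (((Finset.range N).filter (fun n => n ∉ S)).card : ℝ) / N)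
        Filter.atTop (nhds 0) ∧
      ComputablePred (fun p : List ℤ × List ℤ =>
        p.1.length = p.2.length ∧ 1 ≤ p.1.length ∧
        p.1.getD (p.1.length - 1) 0 ≠ 0 ∧
        ∃ u : ℕ → ℤ,
          (∀ i, i < p.1.length → u i = p.2.getD i 0) ∧
          (∀ n : ℕ, u (n + p.1.length) =
            ∑ j ∈ Finset.range p.1.length, p.1.getD j 0 * u (n + p.1.length - 1 - j)) ∧
          ∃ n ∈ S, u n = 0) :=
  main Pool.Agent.Helper71.US.t_A1 Pool.Agent.Helper19.US.t_A2a Pool.Agent.Helper65.US.t_A2b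
    t_A2c Pool.Agent.Helper71.US.t_A4a Pool.Agent.Helper82.US.t_A4b Pool.Agent.Helper82.US.t_A4
    Pool.Agent.Helper61A.US.t_A5 Pool.Agent.Helper3K.US.t_A6 Pool.Agent.Helper48.US.t_B1
    Pool.Agent.Helper99.US.t_B2 Pool.Agent.Helper50.US.t_Da Pool.Agent.Helper50.US.t_Db
    Pool.Agent.Helper33.US.t_Dc Pool.Agent.Helper91K1.US.t_D0 Pool.Agent.Helper31.US.t_E1a
    Pool.Agent.Helper43.US.t_E1b Pool.Agent.Helper98.US.t_F1a Pool.Agent.Helper83.US.t_F1b
    Pool.Agent.Helper83.US.t_F1c Pool.Agent.Helper10K1.US.t_F2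

end Pool.Agent.Helper94.US
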