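import Pool.Agent.Helper94.US.Stm
import Pool.Agent.Helper94.US.A3
import Pool.Agent.TH997.US.Fin
import Pool.Agent.TH997.US.C9
import Pool.Agent.TH997.US.E2
import Pool.Agent.TH997.US.F3

set_option autoImplicit false

/-! # Assembly of the universal Skolem set of density one from the pieces -/

namespace Pool.Agent.Helper94.US

open Polynomial Finset Pool.Agent.H692R2.USS Pool.Agent.TH997.US
open scoped Classical

theorem t_A2 (ha : A2a) (hb : A2b) (hc : A2c) : A2 := by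
  intro hbt hit
  obtain ⟨C, hC, hW⟩ := hb hbt hit
  obtain ⟨C', hC', hS⟩ := hc C hC
  refine ⟨C', hC', fun L => (ha L).trans ((Finset.sum_le_sum fun r _ => Finset.sum_le_sum fun t _ =>
    Finset.sum_le_sum fun s _ => ?_).trans (hS L))⟩
  apply div_le_div_of_nonneg_right _ (by positivity)
  exact le_min (hW r s t).1 (hW r s t).2

theorem t_E1 (ha : E1a) (hb : E1b) : E1 := by
  intro χ u hχ h0 hu
  obtain ⟨g, s, t, rr, m, h1, h2, h3, h4, h5, h6⟩ := ha χ hχ h0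
  obtain ⟨D, v, h7, h8, h9⟩ := hb g s t rr h1 h2 h3 h4 m h5 u (hu.of_dvd h6)
  exact ⟨g, s, t, rr, m, D, v, h1, h2, h3, h4, h5, h7, h8, h9⟩

/-- everything -/
theorem main (hA1 : A1) (hA2a : A2a) (hA2b : A2b) (hA2c : A2c) (hA4a : A4a) (hA4b : A4b)
    (hA4 : A4a → A4b → A4) (hA5 : A5) (hA6 : A6) (hB1 : B1) (hB2 : B2) (hDa : Da) (hDb : Db)
    (hDc : Dc) (hD0 : D0) (hE1a : E1a) (hE1b : E1b) (hF1a : F1a) (hF1b : F1b) (hF1c : F1c)
    (hF2 : F2) :
    ∃ S : Set ℕ, ComputablePred (fun n : ℕ => n ∈ S) ∧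
      Filter.Tendsto (fun N : ℕ => (((Finset.range N).filter (fun n => n ∉ S)).card : ℝ) / N)
        Filter.atTop (nhds 0) ∧
      ComputablePred (fun p : List ℤ × List ℤ =>
        p.1.length = p.2.length ∧ 1 ≤ p.1.length ∧
        p.1.getD (p.1.length - 1) 0 ≠ 0 ∧
        ∃ u : ℕ → ℤ,
          (∀ i, i < p.1.length → u i = p.2.getD i 0) ∧
          (∀ n : ℕ, u (n + p.1.length) =
            ∑ j ∈ Finset.range p.1.length, p.1.getD j 0 * u (n + p.1.length - 1 - j)) ∧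
          ∃ n ∈ S, u n = 0) := by
  have hgcd : GcdSum := t_A2 hA2a hA2b hA2c bt hA1
  have hblock : ∀ k : ℕ, 1 ≤ k → Block k := fun k hk => hA4 hA4a hA4b k hk (t_A3 k hk) hgcd
  exact final (hA6 hblock hA5) hB1 hB2 c9 hDa hDb hDc hD0 (t_E1 hE1a hE1b) e2 (hF1c hF1a hF1b) hF2 f3

end Pool.Agent.Helper94.US
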