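import Pool.Agent.TH997.US.Stm

set_option autoImplicit false

/-!
# A universal Skolem set of density one: the remaining pieces

The design is in the starting files `Pool/Agent/H692R2/USS/{Defs,Iface}.lean` (`SplitAll`, `Generic`,
`GoodPair`, `Good`, `BT`, `InvTot`, `GcdSum`, `Mass`, `Block`, `NonGen`, `GoodDensity`, `iSeq`, `NSeq`,
`lev`, `S`) and `Pool/Agent/TH997/US/Stm.lean` (the parts `A1 ... F3`).  Proved in the starting files: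
`bt : BT` (H692R2/USS/T1), `massK` (T5), `splitField` (SplitField), `good_computable` (W1), `c9 : C9`,
`e2 : E2`, `f3 : F3`, `sem`, `final` (TH997/US).

Every `def X : Prop` below (and every part of TH997/US/Stm.lean named in `help_wanted`) is one piece.
-/

namespace Pool.Agent.Helper94.US

open Polynomial Finset Pool.Agent.H692R2.USS Pool.Agent.TH997.US
open scoped Classical

/-! ## Number theory -/

/-- the dyadic interval `[2^r, 2^(r+1))` -/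
def Dy (r : ℕ) : Finset ℕ := Finset.Ico (2 ^ r) (2 ^ (r + 1))

/-- `∑ φ(d) / (d² k k')` over `d ~ 2^r`, `k ~ 2^s`, `k' ~ 2^t` with `d k + 1`, `d k' + 1` prime -/
noncomputable def W (r s t : ℕ) : ℝ :=
  ∑ d ∈ Dy r, ∑ k ∈ Dy s, ∑ k' ∈ Dy t,
    if (d * k + 1).Prime ∧ (d * k' + 1).Prime then
      (Nat.totient d : ℝ) / ((d : ℝ) ^ 2 * k * k') else 0

/-- **A2a.**  `gcd(a, b) = ∑_{d ∣ a, d ∣ b} φ(d)`; put `p = d k + 1`, `p' = d k' + 1`, `k < k'`, and let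
`2^r ≤ d < 2^(r+1)` and so on: `s ≤ t`, `r + t < L` and `log₂ p' ≥ r + t`. -/
def A2a : Prop := ∀ L : ℕ,
  ∑ p' ∈ (Finset.range (2 ^ L)).filter Nat.Prime, ∑ p ∈ (Finset.range p').filter Nat.Prime,
    ((Nat.gcd (p - 1) (p' - 1) : ℕ) : ℝ) /
      (((p : ℝ) - 1) * ((p' : ℝ) - 1) * ((Nat.log 2 p' : ℝ) + 1)) ≤
    ∑ r ∈ range L, ∑ t ∈ range L, ∑ s ∈ range (t + 1), W r s t / ((r : ℝ) + t + 1)

/-- **A2b.**  First sum over `k'` for fixed `d` (`BT` with the modulus `d`: at most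
`2^(-t) C (d/φ(d)) 2^t/(t+1)`).  First bound: the weight becomes `1/(d k (t+1))`, sum over `d` for fixed
`k` by `BT` with the modulus `k`, and `∑_{k ~ 2^s} 1/φ(k) ≤ C` by `InvTot`.  Second bound: sum over `k` for
fixed `d` by `BT` with the modulus `d`, and `∑_{d ~ 2^r} 1/φ(d) ≤ C`. -/
def A2b : Prop := BT → InvTot → ∃ C : ℝ, 0 < C ∧ ∀ r s t : ℕ,
  W r s t ≤ C / (((r : ℝ) + 1) * ((t : ℝ) + 1)) ∧ W r s t ≤ C / (((s : ℝ) + 1) * ((t : ℝ) + 1))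

/-- **A2c.**  For `s ≤ r` use `1/((r+1)(t+1))` (there are at most `min(r,t) + 1` such `s ≤ t`, so one gets
`1/((max(r,t)+1)(r+t+1)) ≤ 1/(max(r,t)+1)²`, and `∑_{r,t<L}` of this is `≤ ∑_m (2m+1)/(m+1)²`), and for
`r < s ≤ t` use `1/((s+1)(t+1))` and `1/(r+t+1) ≤ 1/(t+1)`: the sum over `r < s` is at most `1/(t+1)²`, over
`s ≤ t` at most `1/(t+1)`.  Finally `∑_{m<L} 1/(m+1) ≤ 1 + log(L+1)`. -/
def A2c : Prop := ∀ C : ℝ, 0 < C → ∃ C' : ℝ, 0 < C' ∧ ∀ L : ℕ,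
  ∑ r ∈ range L, ∑ t ∈ range L, ∑ s ∈ range (t + 1),
    min (C / (((r : ℝ) + 1) * ((t : ℝ) + 1))) (C / (((s : ℝ) + 1) * ((t : ℝ) + 1))) /
      ((r : ℝ) + t + 1) ≤ C' * (1 + Real.log ((L : ℝ) + 1))

/-- **A3.**  From `massK bt K` and `splitField k`. -/
def A3 : Prop := ∀ k : ℕ, 1 ≤ k → Mass k

/-- **A4a.**  For `x ∈ I`, `y ∈ [lo, hi)` the number of `n < M` with `n % a = x`, `n % b = y` is `0` unless
`y ≡ x` modulo `g = gcd(a,b)`, and then `M / lcm(a,b) = M g / (a b)`; and there are at most `(hi - lo)/g + 1`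
such `y`. -/
def A4a : Prop := ∀ (a b M lo hi : ℕ) (I : Finset ℕ), 0 < a → 0 < b → a ∣ M → b ∣ M →
  (∀ x ∈ I, x < a) → hi ≤ b →
  (((range M).filter (fun n => n % a ∈ I ∧ lo ≤ n % b ∧ n % b < hi)).card : ℝ) ≤
    (M : ℝ) * ((I.card : ℝ) * ((hi - lo : ℕ) : ℝ) + (I.card : ℝ) * (Nat.gcd a b : ℝ)) /
      ((a : ℝ) * b)

/-- **A4b.**  The second moment method (Chebyshev). `#{ω : no E_p contains ω} ≤ M V / μ²` -/
def A4b : Prop := ∀ (M : ℕ) (P : Finset ℕ) (E : ℕ → Finset ℕ) (w : ℕ → ℝ) (μ V : ℝ),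
  (∀ p ∈ P, E p ⊆ range M) → (∀ p ∈ P, 0 ≤ w p) → 0 < μ →
  ∑ p ∈ P, w p * (E p).card = M * μ →
  ∑ p ∈ P, ∑ q ∈ P, w p * w q * ((E p ∩ E q).card : ℝ) ≤ M * (μ ^ 2 + V) →
  (((range M).filter (fun n => ∀ p ∈ P, n ∉ E p)).card : ℝ) ≤ M * V / μ ^ 2

/-! ## Certificates -/

/-- **E1a.**  Take for `g` a monic integer polynomial of least degree with `χ ∣ g^m` for some `m ≥ 1`
(`g = χ`, `m = 1` is possible): then `g` is squarefree (if `h² ∣ g` then `g ∣ (g/h)²`), `X ∤ g` (as `X ∤ χ`),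
and a squarefree monic integer polynomial is squarefree, hence separable, over `ℚ`; clear the denominators. -/
def E1a : Prop := ∀ χ : ℤ[X], χ.Monic → χ.coeff 0 ≠ 0 →
  ∃ (g s t : ℤ[X]) (rr : ℤ) (m : ℕ), g.Monic ∧ g.coeff 0 ≠ 0 ∧
    s * g + t * derivative g = C rr ∧ rr ≠ 0 ∧ 1 ≤ m ∧ χ ∣ g ^ m

/-- **E1b.**  Induction on `m`.  Leibniz: `P(E) (C(n,j) v) = ∑_{i ≤ j} C(n,j-i) (E^i P^{[i]}(E) v)` with the
Hasse derivatives `P^{[i]}`; so for `g(E) v = 0` one gets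
`g(E)^(m-1) (C(n,m-1) v) = (E g'(E))^(m-1) v`, and `g(E)^m (C(n,m-1) v) = 0`.  On the kernel of `g(E)` one has
`t(E) g'(E) = rr` and `E q(E) = -g(0)` with `g = X q + g(0)`.  So for
`w = (t(E) q(E))^(m-1) g(E)^(m-1) u` one has `(E g'(E))^(m-1) w = (-rr g(0))^(m-1) g(E)^(m-1) u`, and
`(-rr g(0))^(m-1) u - C(n,m-1) w` is killed by `g(E)^(m-1)`. -/
def E1b : Prop := ∀ (g s t : ℤ[X]) (rr : ℤ), g.Monic → g.coeff 0 ≠ 0 →
  s * g + t * derivative g = C rr → rr ≠ 0 → ∀ m : ℕ, 1 ≤ m → ∀ u : ℕ → ℤ, Ann (g ^ m) u →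
  ∃ (D : ℕ) (v : ℕ → ℕ → ℤ), 1 ≤ D ∧ (∀ j < m, Ann g (v j)) ∧
    ∀ n : ℕ, (D : ℤ) * u n = ∑ j ∈ range m, (n.choose j : ℤ) * v j n

/-- **F1a.**  Growth: the values of `run` satisfy the recurrence (`run_ann`, `run_init`, `ann_PG`), so for
`b ≥ h = G.length` one has `|v b| ≤ k ∑_{i<h} |v (b-h+i)| ≤ k² Vb 2^(k(b-1)) ≤ Vb 2^(k b)`. -/
def F1a : Prop := ∀ (G A : List Z) (k Vb : ℕ), 4 ≤ k → 1 ≤ G.length → G.length ≤ k →
  A.length = G.length → (∀ i < G.length, lez (lc G i) k) → (∀ i < G.length, lez (lc A i) Vb) →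
  ∀ b : ℕ, |iv (run G A b)| ≤ (Vb : ℤ) * 2 ^ (k * b)

/-- **F1b.**  Both sides are killed by `χ g^m` (Leibniz: `g(E)^m` kills `C(n,j) v` for `j < m`), use
`Ann.eq_zero`. -/
def F1b : Prop := ∀ (χ g : ℤ[X]) (u : ℕ → ℤ) (v : ℕ → ℕ → ℤ) (m : ℕ) (D : ℤ), χ.Monic → g.Monic →
  Ann χ u → (∀ j < m, Ann g (v j)) →
  (∀ n < χ.natDegree + m * g.natDegree,
    D * u n = ∑ j ∈ range m, (n.choose j : ℤ) * v j n) →
  ∀ n : ℕ, D * u n = ∑ j ∈ range m, (n.choose j : ℤ) * v j n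

/-- **F1c.**  Soundness from the growth and the decomposition. -/
def F1c : Prop := F1a → F1b → F1

end Pool.Agent.Helper94.US
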